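import Pool.Agent.Lib.MP_ed556a_co.Upper
import Pool.Agent.Lib.MP_ed556a_co.Hull

namespace Pool.Agent.Results.MP_ed556a_co.Shape

open Pool.Agent.Prof5

/-- The set of limiting (path, star) densities of trees is the convex hull of `verts`. -/
theorem result : PathStarSet = convexHull ℝ verts :=
  (Set.Subset.antisymm upper lower).trans hull_eq

end Pool.Agent.Results.MP_ed556a_co.Shape
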